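import Pool.Agent.U167.SA.Stm

/-!
Package PPB of project SA: elementary properties of the infinite volume arm probabilities
(bounds, convergence, monotonicity, translation, positivity).
-/

set_option autoImplicit false

namespace Pool.Agent.U396.SA

open H974 Finset Filter Topology
open Pool.Agent.U167.SA

theorem okh : Ok (fun _ : Edg => (1/2 : ℝ)) := fun _ => ⟨by norm_num, by norm_num⟩

theorem boxE_mono {M M' : ℕ} (h : M ≤ M') : boxE M ⊆ boxE M' := by
  rintro ⟨x, y, _ | _⟩ he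
  · simp only [boxE, mem_RE_false] at he ⊢; omega
  · simp only [boxE, mem_RE_true] at he ⊢; omega

theorem Hit_mono {G G' : Set Edg} {A A' : Set Vtx} {n : ℤ} {F F' : Finset Edg}
    (hG : G ⊆ G') (hA : A ⊆ A') (hF : F ⊆ F') (h : Hit G A n F) : Hit G' A' n F' := by
  obtain ⟨u, hu, v, hv, hr⟩ := h
  exact ⟨u, hA hu, v, hv, hr.mono (Set.inter_subset_inter (by exact_mod_cast hF) hG)⟩

theorem Hit_incr (G : Set Edg) (A : Set Vtx) (n : ℤ) (S : Finset Edg) :
    IncrE S (Hit G A n) := fun _ _ h _ hF => Hit_mono subset_rfl subset_rfl h hF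

theorem PM_nonneg (G : Set Edg) (A : Set Vtx) (n : ℤ) (M : ℕ) : 0 ≤ PM G A n M :=
  Pr_nonneg okh _ _

theorem PM_le_one (G : Set Edg) (A : Set Vtx) (n : ℤ) (M : ℕ) : PM G A n M ≤ 1 :=
  Pr_le_one okh _ _

theorem PM_monotone (G : Set Edg) (A : Set Vtx) (n : ℤ) : Monotone (PM G A n) := by
  intro M M' h
  exact Pr_mono_set okh (boxE_mono h) (Hit_incr G A n _)

theorem PM_bdd (G : Set Edg) (A : Set Vtx) (n : ℤ) : BddAbove (Set.range (PM G A n)) :=
  ⟨1, by rintro _ ⟨M, rfl⟩; exact PM_le_one G A n M⟩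

theorem PM_le_PP (G : Set Edg) (A : Set Vtx) (n : ℤ) (M : ℕ) : PM G A n M ≤ PP G A n :=
  le_ciSup (PM_bdd G A n) M

theorem PP_nonneg (G : Set Edg) (A : Set Vtx) (n : ℤ) : 0 ≤ PP G A n :=
  (PM_nonneg G A n 0).trans (PM_le_PP G A n 0)

theorem PP_le_one (G : Set Edg) (A : Set Vtx) (n : ℤ) : PP G A n ≤ 1 :=
  ciSup_le (PM_le_one G A n)

theorem PM_tendsto (G : Set Edg) (A : Set Vtx) (n : ℤ) :
    Tendsto (PM G A n) atTop (𝓝 (PP G A n)) :=
  tendsto_atTop_ciSup (PM_monotone G A n) (PM_bdd G A n)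

theorem PP_mono {G G' : Set Edg} {A A' : Set Vtx} (n : ℤ) (hG : G ⊆ G') (hA : A ⊆ A') :
    PP G A n ≤ PP G' A' n :=
  ciSup_mono (PM_bdd G' A' n) (fun _ => Pr_mono okh (fun _ _ h => Hit_mono hG hA subset_rfl h))

theorem col_adj {H : Set Edg} {u v : Vtx} (h : Adj H u v) : col v ≤ col u + 1 := by
  obtain ⟨⟨x, y, _ | _⟩, _, ⟨h1, h2⟩ | ⟨h1, h2⟩⟩ := h <;>
    simp at h1 h2 <;> subst h1 <;> subst h2 <;> simp [col] <;> omega

theorem visit {H : Set Edg} {u : Vtx} {n : ℤ} (hu : col u ≤ n) {v : Vtx} (h : Reach H u v)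
    (hv : n ≤ col v) : ∃ w, col w = n ∧ Reach H u w := by
  unfold Reach at h
  induction h with
  | refl => exact ⟨u, le_antisymm hu hv, Reach.refl _ _⟩
  | @tail b c hb hbc ih =>
    by_cases h1 : n ≤ col b
    · exact ih h1
    · have h2 := col_adj hbc
      exact ⟨c, by omega, Reach.trans hb hbc.reach⟩

theorem PP_anti (G : Set Edg) (A : Set Vtx) {n n' : ℤ} (hA : ∀ v ∈ A, col v ≤ n)
    (h : n ≤ n') : PP G A n' ≤ PP G A n := by
  apply ciSup_mono (PM_bdd G A n)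
  intro M
  apply Pr_mono okh
  rintro F - ⟨u, hu, v, hv, hr⟩
  obtain ⟨w, hw, hr'⟩ := visit (hA u hu) hr (by omega)
  exact ⟨u, hu, w, hw, hr'⟩

theorem Hit_trl (k : ℤ) (G : Set Edg) (A : Set Vtx) (n : ℤ) (F : Finset Edg) :
    Hit (shE k G) (shV k A) (n + 2*k) ((trl k (-k)).mp F) ↔ Hit G A n F := by
  have hset : (↑((trl k (-k)).mp F) ∩ shE k G : Set Edg) = (trl k (-k)).φ '' (↑F ∩ G) := by
    rw [LSym.coe_mp]
    ext e
    constructor
    · rintro ⟨⟨e', he', rfl⟩, h2⟩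
      refine ⟨e', ⟨he', ?_⟩, rfl⟩
      simpa [shE, trl] using h2
    · rintro ⟨e', ⟨h1, h2⟩, rfl⟩
      refine ⟨⟨e', h1, rfl⟩, ?_⟩
      simpa [shE, trl] using h2
  constructor
  · rintro ⟨u, hu, v, hv, hr⟩
    rw [hset] at hr
    refine ⟨(trl k (-k)).ψ.symm u, ?_, (trl k (-k)).ψ.symm v, ?_, ?_⟩
    · simpa [shV, trl] using hu
    · simp only [trl, col, Equiv.coe_fn_symm_mk] at hv ⊢
      omega
    · rw [← LSym.reach_iff (trl k (-k)), Equiv.apply_symm_apply, Equiv.apply_symm_apply]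
      exact hr
  · rintro ⟨u, hu, v, hv, hr⟩
    refine ⟨(trl k (-k)).ψ u, ?_, (trl k (-k)).ψ v, ?_, ?_⟩
    · simpa [shV, trl] using hu
    · simp only [trl, col, Equiv.coe_fn_mk] at hv ⊢
      omega
    · rw [hset]
      exact LSym.reach _ hr

theorem mp_box (k : ℤ) (M : ℕ) : (trl k (-k)).mp (boxE M) ⊆ boxE (M + k.natAbs) := by
  rintro ⟨x, y, b⟩ he
  rw [LSym.mem_mp] at he
  cases b
  · simp only [trl, Equiv.coe_fn_symm_mk, boxE, mem_RE_false] at he ⊢
    omega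
  · simp only [trl, Equiv.coe_fn_symm_mk, boxE, mem_RE_true] at he ⊢
    omega

theorem PP_trl_le (k : ℤ) (G : Set Edg) (A : Set Vtx) (n : ℤ) :
    PP G A n ≤ PP (shE k G) (shV k A) (n + 2*k) := by
  apply ciSup_le
  intro M
  have h1 : PM G A n M =
      Pr (fun _ => (1/2 : ℝ)) ((trl k (-k)).mp (boxE M)) (Hit (shE k G) (shV k A) (n + 2*k)) := by
    rw [LSym.pr]
    exact Pr_congr (fun F _ => (Hit_trl k G A n F).symm)
  rw [h1]
  exact (Pr_mono_set okh (mp_box k M) (Hit_incr _ _ _ _)).trans (PM_le_PP _ _ _ _)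

theorem PP_trl (k : ℤ) (G : Set Edg) (A : Set Vtx) (n : ℤ) :
    PP (shE k G) (shV k A) (n + 2*k) = PP G A n := by
  apply le_antisymm _ (PP_trl_le k G A n)
  have h := PP_trl_le (-k) (shE k G) (shV k A) (n + 2*k)
  have e1 : shE (-k) (shE k G) = G := by
    ext e; simp [shE]
  have e2 : shV (-k) (shV k A) = A := by
    ext v; simp [shV]
  have e3 : n + 2 * k + 2 * (-k) = n := by ring
  rwa [e1, e2, e3] at h

theorem finite_reach {G : Set Edg} {u v : Vtx} (h : Reach G u v) :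
    ∃ T : Finset Edg, (↑T : Set Edg) ⊆ G ∧ Reach ↑T u v := by
  unfold Reach at h
  induction h with
  | refl => exact ⟨∅, by simp, Reach.refl _ _⟩
  | @tail b c hb hbc ih =>
    obtain ⟨T, hT, hr⟩ := ih
    obtain ⟨e, he, hcase⟩ := hbc
    refine ⟨insert e T, ?_, ?_⟩
    · intro x hx
      rcases Finset.mem_insert.mp (Finset.mem_coe.mp hx) with rfl | hx
      · exact he
      · exact hT hx
    · refine (hr.mono ?_).trans (Adj.reach ⟨e, by simp, hcase⟩)
      intro x hx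
      simp [Finset.mem_coe.mp hx]

theorem exists_box (T : Finset Edg) : ∃ M : ℕ, T ⊆ boxE M := by
  induction T using Finset.induction_on with
  | empty => exact ⟨0, by simp⟩
  | @insert e T _ ih =>
    obtain ⟨M, hM⟩ := ih
    obtain ⟨x, y, b⟩ := e
    refine ⟨M + x.natAbs + y.natAbs + 1, ?_⟩
    intro f hf
    rcases Finset.mem_insert.mp hf with rfl | hf
    · cases b
      · simp only [boxE, mem_RE_false]; omega
      · simp only [boxE, mem_RE_true]; omega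
    · exact boxE_mono (by omega) (hM hf)

theorem Pr_pos_of_full (S : Finset Edg) {B : Finset Edg → Prop} (h : B S) :
    0 < Pr (fun _ => (1/2 : ℝ)) S B := by
  unfold Pr Ex
  have hnn : ∀ F ∈ S.powerset, 0 ≤ (∏ e ∈ F, (1/2 : ℝ)) * (∏ e ∈ S \ F, (1 - (1/2 : ℝ))) * ind (B F) := by
    intro F _
    have := ind_nonneg (B F)
    apply mul_nonneg _ this
    apply mul_nonneg <;> exact Finset.prod_nonneg (fun _ _ => by norm_num)
  have hle := Finset.single_le_sum hnn (Finset.mem_powerset_self S)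
  refine lt_of_lt_of_le ?_ hle
  rw [ind_of h]
  have h1 : 0 < ∏ e ∈ S, (1/2 : ℝ) := Finset.prod_pos (fun _ _ => by norm_num)
  have h2 : 0 < ∏ e ∈ S \ S, (1 - (1/2 : ℝ)) := Finset.prod_pos (fun _ _ => by norm_num)
  positivity

theorem PP_pos {G : Set Edg} {A : Set Vtx} {n : ℤ}
    (h : ∃ u ∈ A, ∃ v, col v = n ∧ Reach G u v) : 0 < PP G A n := by
  obtain ⟨u, hu, v, hv, hr⟩ := h
  obtain ⟨T, hT, hr'⟩ := finite_reach hr
  obtain ⟨M, hM⟩ := exists_box T
  refine lt_of_lt_of_le ?_ (PM_le_PP G A n M)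
  apply Pr_pos_of_full
  refine ⟨u, hu, v, hv, hr'.mono ?_⟩
  intro e he
  exact ⟨Finset.mem_coe.mpr (hM (Finset.mem_coe.mp he)), hT he⟩

theorem t_PPB : PPBStm :=
  ⟨fun G A n => ⟨PP_nonneg G A n, PP_le_one G A n⟩, PM_monotone, PM_tendsto,
    fun _ _ _ _ n hG hA => PP_mono n hG hA, fun G A _ _ hA h => PP_anti G A hA h,
    PP_trl, fun _ _ _ h => PP_pos h⟩

end Pool.Agent.U396.SA
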